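import Pool.Agent.helper52.OC.SpecA

/-!
# Project oc:, row OZO: a maximal orderable quotient that keeps `x` alive
-/

set_option autoImplicit false

namespace OC

/-- **OZO.** -/
theorem OZO (hOUL : OUL_stmt) : OZO_stmt := by
  intro G _ x hx hO
  obtain ⟨P, hP⟩ := hO
  have hbot : (⊥ : Subgroup G) ∈ {N : Subgroup G | OQ N ∧ x ∉ N} :=
    ⟨⟨inferInstance, P, hP⟩, fun h => hx (Subgroup.mem_bot.mp h)⟩
  obtain ⟨N, hN, hmax⟩ := zorn_le_nonempty₀ {N : Subgroup G | OQ N ∧ x ∉ N} (by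
    intro c hc hch y hy
    have hne : c.Nonempty := ⟨y, hy⟩
    refine ⟨sSup c, ⟨hOUL G c hch hne (fun N hN => (hc hN).1), ?_⟩, fun z hz => le_sSup hz⟩
    intro hxs
    rw [Subgroup.mem_sSup_of_directedOn hne hch.directedOn] at hxs
    obtain ⟨N, hN, hxN⟩ := hxs
    exact (hc hN).2 hxN) ⊥ hbot
  refine ⟨N, hmax.prop.1, hmax.prop.2, ?_⟩
  intro N' hN' hle hx'
  exact (hmax.eq_of_ge ⟨hN', hx'⟩ hle)

end OC
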